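import Pool.Agent.Helper64.RFn.GoalsS

/-! # Project RFn, packet SCA1: scaling of the frame -/

open MeasureTheory Set Matrix

open scoped RealInnerProductSpace

namespace Pool.Agent.Helper51.RFn.SCA1

open Pool.Agent.Helper47.RFn (EE MF pd Hom0 Sm IsMetric cyl Chr Rup Rm ip gvol Tan nn integ Goal_C1)
open Pool.Agent.Helper64.RFn (rr Sr scl Cofr)

variable {n : ℕ}

lemma sum_sq (x : EE n) : ∑ i, x i ^ 2 = ‖x‖ ^ 2 := by
  rw [EuclideanSpace.norm_sq_eq]
  simp

lemma rr_apply (x : EE n) (i j : Fin (n + 1)) : rr x i j = x i * x j / ‖x‖ ^ 2 := rfl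

lemma rr_symm (x : EE n) : (rr x).transpose = rr x := by
  ext i j
  simp only [Matrix.transpose_apply, rr_apply]
  ring

lemma rr_mul_x (x : EE n) (i : Fin (n + 1)) : ∑ j, rr x i j * x j = x i := by
  by_cases hx : x = 0
  · subst hx; simp
  have hn : ‖x‖ ^ 2 ≠ 0 := pow_ne_zero _ (norm_ne_zero_iff.mpr hx)
  have h1 : ∀ j, rr x i j * x j = x i / ‖x‖ ^ 2 * x j ^ 2 := fun j => by
    rw [rr_apply]; ring
  simp only [h1, ← Finset.mul_sum, sum_sq]
  field_simp

lemma mul_rr {M : Matrix (Fin (n + 1)) (Fin (n + 1)) ℝ} (x : EE n)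
    (h : ∀ i, ∑ j, M i j * x j = x i) : M * rr x = rr x := by
  ext i j
  have h1 : ∀ k, M i k * rr x k j = (M i k * x k) * (x j / ‖x‖ ^ 2) := fun k => by
    rw [rr_apply]; ring
  rw [Matrix.mul_apply, Finset.sum_congr rfl (fun k _ => h1 k), ← Finset.sum_mul, h, rr_apply]
  ring

lemma rr_rr (x : EE n) : rr x * rr x = rr x := mul_rr x (rr_mul_x x)

lemma G_rr {G : MF n} (hG : IsMetric G) (x : EE n) : G x * rr x = rr x := mul_rr x (hG.rad x)

lemma G_symm {G : MF n} (hG : IsMetric G) (x : EE n) : (G x).transpose = G x := by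
  have := (hG.pos x).isHermitian
  rwa [Matrix.IsHermitian, Matrix.conjTranspose_eq_transpose_of_trivial] at this

lemma rr_G {G : MF n} (hG : IsMetric G) (x : EE n) : rr x * G x = rr x := by
  have h := congrArg Matrix.transpose (G_rr hG x)
  rw [Matrix.transpose_mul, rr_symm, G_symm hG] at h
  exact h

lemma Sr_symm (r : ℝ) (x : EE n) : (Sr r x).transpose = Sr r x := by
  simp only [Sr, Matrix.transpose_add, Matrix.transpose_smul, Matrix.transpose_sub, rr_symm,
    Matrix.transpose_one]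

lemma Sr_mul (r s : ℝ) (h : r * s = 1) (x : EE n) : Sr r x * Sr s x = 1 := by
  have hp := rr_rr x
  have h1 : rr x * (1 - rr x) = 0 := by rw [Matrix.mul_sub, Matrix.mul_one, hp, sub_self]
  have h2 : (1 - rr x) * rr x = 0 := by rw [Matrix.sub_mul, Matrix.one_mul, hp, sub_self]
  have h3 : (1 - rr x) * (1 - rr x) = 1 - rr x := by
    rw [Matrix.mul_sub, h2, Matrix.mul_one, sub_zero]
  simp only [Sr, Matrix.add_mul, Matrix.mul_add, Matrix.smul_mul, Matrix.mul_smul, hp, h1, h2, h3,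
    smul_zero, add_zero, zero_add, smul_smul, h, one_smul]
  rw [mul_comm s r, h, one_smul]
  abel

lemma Sr_G {G : MF n} (hG : IsMetric G) (r : ℝ) (x : EE n) :
    Sr r x * G x * Sr r x = rr x + (r * r) • (G x - rr x) := by
  have hp := rr_rr x
  have h1 := rr_G hG x
  have h2 := G_rr hG x
  have h3 : (1 - rr x) * G x = G x - rr x := by rw [Matrix.sub_mul, Matrix.one_mul, h1]
  have h4 : rr x * (1 - rr x) = 0 := by rw [Matrix.mul_sub, Matrix.mul_one, hp, sub_self]
  have h5 : (G x - rr x) * rr x = 0 := by rw [Matrix.sub_mul, h2, hp, sub_self]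
  have h6 : (G x - rr x) * (1 - rr x) = G x - rr x := by
    rw [Matrix.mul_sub, h5, Matrix.mul_one, sub_zero]
  simp only [Sr, Matrix.add_mul, Matrix.mul_add, Matrix.smul_mul, Matrix.mul_smul, hp, h1, h3, h4,
    h5, h6, smul_zero, add_zero, zero_add, smul_smul]

lemma Sr_G' {G : MF n} (hG : IsMetric G) {c : ℝ} (hc : 0 < c) (x : EE n) :
    scl c G x = Sr (Real.sqrt c) x * G x * Sr (Real.sqrt c) x := by
  rw [Sr_G hG, Real.mul_self_sqrt hc.le]
  rfl

lemma det_Sr {r : ℝ} (hr : 0 < r) {x : EE n} (hx : x ≠ 0) : (Sr r x).det = r ^ n := by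
  have hn : ‖x‖ ^ 2 ≠ 0 := pow_ne_zero _ (norm_ne_zero_iff.mpr hx)
  have h1 : Sr r x = r • (1 + Matrix.replicateCol Unit (fun i => (1 - r) / r * x i) *
      Matrix.replicateRow Unit (fun j => x j / ‖x‖ ^ 2)) := by
    ext i j
    simp only [Sr, Matrix.add_apply, Matrix.smul_apply, Matrix.sub_apply, rr_apply, smul_eq_mul,
      Matrix.mul_apply, Matrix.replicateCol_apply, Matrix.replicateRow_apply, Finset.univ_unique,
      Finset.sum_const, Finset.card_singleton, one_smul]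
    field_simp
    ring
  rw [h1, Matrix.det_smul, Matrix.det_one_add_replicateCol_mul_replicateRow, Fintype.card_fin]
  have h2 : (fun j => x j / ‖x‖ ^ 2) ⬝ᵥ (fun i => (1 - r) / r * x i) = (1 - r) / r := by
    have h3 : ∀ j, x j / ‖x‖ ^ 2 * ((1 - r) / r * x j) = (1 - r) / r / ‖x‖ ^ 2 * x j ^ 2 :=
      fun j => by ring
    simp only [dotProduct, h3, ← Finset.mul_sum, sum_sq]
    field_simp
  rw [h2, pow_succ]
  field_simp
  ring

lemma sm_rr (hC1 : Goal_C1) (i j : Fin (n + 1)) : Sm (fun x : EE n => rr x i j) := by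
  obtain ⟨-, -, -, hmul, -, -, -, -, -, -, -, hnn⟩ := hC1 n
  have h1 : (fun x : EE n => rr x i j) = fun x => nn i x * nn j x := by
    funext x
    rw [rr_apply]
    unfold nn
    ring
  rw [h1]
  exact hmul _ _ (hnn i) (hnn j)

lemma sm_one (hC1 : Goal_C1) (i j : Fin (n + 1)) :
    Sm (fun _ : EE n => (1 : Matrix (Fin (n + 1)) (Fin (n + 1)) ℝ) i j) := (hC1 n).1 _

lemma sm_Sr (hC1 : Goal_C1) (r : ℝ) (i j : Fin (n + 1)) : Sm (fun x : EE n => Sr r x i j) := by
  obtain ⟨hc, hadd, hsub, hmul, -⟩ := hC1 n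
  exact hadd _ _ (sm_rr hC1 i j) (hmul _ _ (hc r) (hsub _ _ (sm_one hC1 i j) (sm_rr hC1 i j)))

lemma sm_mul (hC1 : Goal_C1) {A B : MF n} (hA : ∀ i j, Sm (fun x => A x i j))
    (hB : ∀ i j, Sm (fun x => B x i j)) (i j : Fin (n + 1)) :
    Sm (fun x => (A x * B x) i j) := by
  obtain ⟨-, -, -, hmul, -, hsum, -⟩ := hC1 n
  exact hsum (Fin (n + 1)) Finset.univ (fun k x => A x i k * B x k j)
    (fun k _ => hmul _ _ (hA i k) (hB k j))

lemma metric_scl (hC1 : Goal_C1) {G : MF n} (hG : IsMetric G) {c : ℝ} (hc : 0 < c) :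
    IsMetric (scl c G) := by
  have hr : 0 < Real.sqrt c := Real.sqrt_pos.mpr hc
  refine ⟨?_, ?_, ?_⟩
  · intro i j
    obtain ⟨hcst, hadd, hsub, hmul, -⟩ := hC1 n
    exact hadd _ _ (sm_rr hC1 i j) (hmul _ _ (hcst c) (hsub _ _ (hG.sm i j) (sm_rr hC1 i j)))
  · intro x
    rw [Sr_G' hG hc]
    have hinj : Function.Injective (Sr (Real.sqrt c) x).vecMul := by
      intro u v huv
      have h1 := congrArg (fun w => w ᵥ* Sr (1 / Real.sqrt c) x) huv
      simp only [Matrix.vecMul_vecMul] at h1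
      rw [Sr_mul _ _ (by field_simp) x, Matrix.vecMul_one, Matrix.vecMul_one] at h1
      exact h1
    have h2 := (hG.pos x).mul_mul_conjTranspose_same hinj
    rwa [Matrix.conjTranspose_eq_transpose_of_trivial, Sr_symm] at h2
  · intro x i
    have h1 : ∀ j, scl c G x i j * x j =
        rr x i j * x j + c * (G x i j * x j - rr x i j * x j) := fun j => by
      simp only [scl, Matrix.add_apply, Matrix.smul_apply, Matrix.sub_apply, smul_eq_mul]
      ring
    simp only [h1, Finset.sum_add_distrib, ← Finset.mul_sum, Finset.sum_sub_distrib, hG.rad,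
      rr_mul_x]
    ring

lemma keyae {G : MF n} {c : ℝ} (hc : 0 < c)
    (hdet : ∀ x, x ≠ 0 → (scl c G x).det = c ^ n * (G x).det) :
    (fun x => Real.sqrt (scl c G x).det) =ᵐ[volume.restrict (Metric.ball (0 : EE n) 1)]
      fun x => Real.sqrt c ^ n * Real.sqrt (G x).det := by
  have h0 : ∀ᵐ x ∂(volume.restrict (Metric.ball (0 : EE n) 1)), x ≠ 0 := by
    apply MeasureTheory.ae_restrict_of_ae
    exact MeasureTheory.Measure.ae_ne volume (0 : EE n)
  filter_upwards [h0] with x hx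
  rw [hdet x hx]
  have h1 : c ^ n = (Real.sqrt c ^ n) ^ 2 := by
    rw [← pow_mul, mul_comm n 2, pow_mul, Real.sq_sqrt hc.le]
  rw [h1, Real.sqrt_mul (by positivity), Real.sqrt_sq (by positivity)]

end Pool.Agent.Helper51.RFn.SCA1

open Pool.Agent.Helper47.RFn (EE MF pd Hom0 Sm IsMetric cyl Chr Rup Rm ip gvol Tan nn integ Goal_C1)
open Pool.Agent.Helper64.RFn (rr Sr scl Cofr)
open Pool.Agent.Helper51.RFn.SCA1 in
theorem Pool.Agent.Helper51.RFn.sca1 (hC1 : Goal_C1) : Pool.Agent.Helper64.RFn.SCA1 := by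
  intro n c G A θ hc hF
  have hG := hF.met
  have hr : 0 < Real.sqrt c := Real.sqrt_pos.mpr hc
  have hdet : ∀ x, x ≠ 0 → (scl c G x).det = c ^ n * (G x).det := by
    intro x hx
    rw [Sr_G' hG hc, Matrix.det_mul, Matrix.det_mul, det_Sr hr hx]
    have h1 : Real.sqrt c ^ n * Real.sqrt c ^ n = c ^ n := by
      rw [← mul_pow, Real.mul_self_sqrt hc.le]
    rw [← h1]
    ring
  refine ⟨⟨metric_scl hC1 hG hc, ?_, ?_, ?_, ?_⟩, hdet, ?_⟩
  · intro i j
    exact sm_mul hC1 hF.smA (sm_Sr hC1 _) i j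
  · intro i j
    exact sm_mul hC1 (sm_Sr hC1 _) hF.smt i j
  · intro x
    have h1 : A x * Sr (1 / Real.sqrt c) x * (Sr (Real.sqrt c) x * θ x) =
        A x * (Sr (1 / Real.sqrt c) x * Sr (Real.sqrt c) x) * θ x := by
      simp only [Matrix.mul_assoc]
    rw [h1, Sr_mul _ _ (by field_simp) x, Matrix.mul_one, hF.inv]
  · intro x
    rw [Sr_G' hG hc, Matrix.transpose_mul, Sr_symm, hF.gth x]
    simp only [Matrix.mul_assoc]
  · unfold gvol integ
    have key : ∫ x in Metric.ball (0 : EE n) 1, Real.sqrt (scl c G x).det =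
        Real.sqrt c ^ n * ∫ x in Metric.ball (0 : EE n) 1, Real.sqrt (G x).det := by
      rw [← MeasureTheory.integral_const_mul]
      exact MeasureTheory.integral_congr_ae (keyae hc hdet)
    rw [key]
    ring
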