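import Pool.Agent.Helper47.RFn.Alg

/-! # Packet RFn-BT: trace inequality for positive semidefinite block matrices -/

set_option autoImplicit false

namespace Pool.Agent.Helper47.RFn

open Finset Matrix

open scoped MatrixOrder ComplexOrder in
theorem gram_bt {ι : Type} [Fintype ι] [DecidableEq ι] (M : Matrix ι ι ℂ) (hM : M.PosSemidef) :
    ∃ B : Matrix ι ι ℂ, M = Bᴴ * B := by
  obtain ⟨B, hB⟩ := CStarAlgebra.nonneg_iff_eq_star_mul_self.mp hM.nonneg
  exact ⟨B, hB⟩

/-- the block form -/
def blk_bt (n : ℕ) (S T P : Matrix (Fin n) (Fin n) ℂ) :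
    Matrix (Fin n ⊕ Fin n) (Fin n ⊕ Fin n) ℂ :=
  Matrix.of fun b a => Sum.elim (fun e => Sum.elim (fun f => S e f) (fun f => T e f) b)
    (fun e => Sum.elim (fun f => star (T f e)) (fun f => P e f) b) a

theorem exch_bt {n : ℕ} {κ : Type} [Fintype κ] (p q r s : κ → Fin n → ℂ) :
    ∑ e, ∑ f, (∑ k, p k f * q k e) * (∑ l, r l f * s l e) =
      ∑ k, ∑ l, (∑ e, q k e * s l e) * (∑ f, p k f * r l f) := by
  simp_rw [sum_mul_sum]
  calc ∑ e, ∑ f, ∑ k, ∑ l, p k f * q k e * (r l f * s l e)
      = ∑ e, ∑ k, ∑ f, ∑ l, p k f * q k e * (r l f * s l e) :=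
        sum_congr rfl fun e _ => sum_comm
    _ = ∑ k, ∑ e, ∑ f, ∑ l, p k f * q k e * (r l f * s l e) := sum_comm
    _ = ∑ k, ∑ e, ∑ l, ∑ f, p k f * q k e * (r l f * s l e) :=
        sum_congr rfl fun k _ => sum_congr rfl fun e _ => sum_comm
    _ = ∑ k, ∑ l, ∑ e, ∑ f, p k f * q k e * (r l f * s l e) :=
        sum_congr rfl fun k _ => sum_comm
    _ = _ := by
        refine sum_congr rfl fun k _ => sum_congr rfl fun l _ => sum_congr rfl fun e _ =>
          sum_congr rfl fun f _ => ?_
        ring

open scoped ComplexOrder in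
theorem goal_BT : Goal_BT := by
  intro n S T P hS hP hpos
  have hH : (blk_bt n S T P).IsHermitian := by
    ext b a
    rcases a with a | a <;> rcases b with b | b
    · simp [blk_bt, hS a b]
    · simp [blk_bt]
    · simp [blk_bt]
    · simp [blk_bt, hP a b]
  have hM : (blk_bt n S T P).PosSemidef := by
    refine PosSemidef.of_dotProduct_mulVec_nonneg hH fun x => ?_
    rw [Complex.nonneg_iff]
    refine ⟨?_, (hH.im_star_dotProduct_mulVec_self x).symm⟩
    have h1 := hpos (fun e => x (Sum.inl e)) (fun e => x (Sum.inr e))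
    have h2 : (star x ⬝ᵥ (blk_bt n S T P *ᵥ x)) =
        ∑ e, ∑ f, (S e f * x (Sum.inl e) * star (x (Sum.inl f))
          + P e f * x (Sum.inr e) * star (x (Sum.inr f))
          + T e f * x (Sum.inl e) * star (x (Sum.inr f))
          + star (T e f * x (Sum.inl e) * star (x (Sum.inr f)))) := by
      simp only [dotProduct, mulVec, Fintype.sum_sum_type, blk_bt, Pi.star_apply, Matrix.of_apply,
        Sum.elim_inl, Sum.elim_inr, mul_add, sum_add_distrib, mul_sum, star_mul', star_star]
      have s1 : ∑ a₁, ∑ i, star (x (Sum.inl a₁)) * (S i a₁ * x (Sum.inl i)) =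
          ∑ e, ∑ f, S e f * x (Sum.inl e) * star (x (Sum.inl f)) := by
        rw [sum_comm]
        exact sum_congr rfl fun e _ => sum_congr rfl fun f _ => by ring
      have s2 : ∑ a₂, ∑ i, star (x (Sum.inr a₂)) * (T i a₂ * x (Sum.inl i)) =
          ∑ e, ∑ f, T e f * x (Sum.inl e) * star (x (Sum.inr f)) := by
        rw [sum_comm]
        exact sum_congr rfl fun e _ => sum_congr rfl fun f _ => by ring
      have s3 : ∑ a₁, ∑ i, star (x (Sum.inl a₁)) * (star (T a₁ i) * x (Sum.inr i)) =
          ∑ e, ∑ f, star (T e f) * star (x (Sum.inl e)) * x (Sum.inr f) :=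
        sum_congr rfl fun e _ => sum_congr rfl fun f _ => by ring
      have s4 : ∑ a₂, ∑ i, star (x (Sum.inr a₂)) * (P i a₂ * x (Sum.inr i)) =
          ∑ e, ∑ f, P e f * x (Sum.inr e) * star (x (Sum.inr f)) := by
        rw [sum_comm]
        exact sum_congr rfl fun e _ => sum_congr rfl fun f _ => by ring
      rw [s1, s2, s3, s4]
      ring
    rw [h2]
    refine h1.trans (le_of_eq ?_)
    simp only [Complex.re_sum]
    refine sum_congr rfl fun e _ => sum_congr rfl fun f _ => ?_
    simp only [Complex.add_re]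
    have h3 : ∀ z : ℂ, (star z).re = z.re := fun z => Complex.conj_re z
    have h4 : ∀ z : ℂ, (2 * z).re = 2 * z.re := fun z => by simp
    rw [h3, h4]
    ring
  obtain ⟨B, hB⟩ := gram_bt _ hM
  set X : (Fin n ⊕ Fin n) → Fin n → ℂ := fun k e => B k (Sum.inl e) with hX
  set Y : (Fin n ⊕ Fin n) → Fin n → ℂ := fun k e => B k (Sum.inr e) with hY
  have eS : ∀ e f, S e f = ∑ k, star (X k f) * X k e := by
    intro e f
    have h := congrFun (congrFun hB (Sum.inl f)) (Sum.inl e)
    simpa [blk_bt, Matrix.mul_apply, Matrix.conjTranspose_apply] using h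
  have eP : ∀ e f, P e f = ∑ k, star (Y k f) * Y k e := by
    intro e f
    have h := congrFun (congrFun hB (Sum.inr f)) (Sum.inr e)
    simpa [blk_bt, Matrix.mul_apply, Matrix.conjTranspose_apply] using h
  have eT : ∀ e f, T e f = ∑ k, star (Y k f) * X k e := by
    intro e f
    have h := congrFun (congrFun hB (Sum.inr f)) (Sum.inl e)
    simpa [blk_bt, Matrix.mul_apply, Matrix.conjTranspose_apply] using h
  set m : (Fin n ⊕ Fin n) → (Fin n ⊕ Fin n) → ℂ := fun k l => ∑ e, X k e * Y l e with hm
  have hstar : ∀ k l, ∑ f, star (Y k f) * star (X l f) = star (m l k) := by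
    intro k l
    rw [hm, star_sum]
    exact sum_congr rfl fun f _ => by rw [star_mul']; ring
  have c1 : ∑ e, ∑ f, P e f * S e f = ∑ k, ∑ l, m l k * star (m l k) := by
    have h1 : ∑ e, ∑ f, P e f * S e f =
        ∑ e, ∑ f, (∑ k, star (Y k f) * Y k e) * (∑ l, star (X l f) * X l e) :=
      sum_congr rfl fun e _ => sum_congr rfl fun f _ => by rw [eP, eS]
    rw [h1, exch_bt (fun k f => star (Y k f)) Y (fun l f => star (X l f)) X]
    refine sum_congr rfl fun k _ => sum_congr rfl fun l _ => ?_
    rw [hstar]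
    congr 1
    exact sum_congr rfl fun e _ => mul_comm _ _
  have c2 : ∑ e, ∑ f, T e f * star (T f e) = ∑ k, ∑ l, m k l * star (m l k) := by
    have h1 : ∑ e, ∑ f, T e f * star (T f e) =
        ∑ e, ∑ f, (∑ k, star (Y k f) * X k e) * (∑ l, star (X l f) * Y l e) := by
      refine sum_congr rfl fun e _ => sum_congr rfl fun f _ => ?_
      rw [eT, eT f e, star_sum]
      congr 1
      exact sum_congr rfl fun l _ => by rw [star_mul', star_star]; ring
    rw [h1, exch_bt (fun k f => star (Y k f)) X (fun l f => star (X l f)) Y]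
    refine sum_congr rfl fun k _ => sum_congr rfl fun l _ => ?_
    rw [hstar]
  simp only [sum_sub_distrib]
  rw [c1, c2, ← sum_sub_distrib]
  simp only [← sum_sub_distrib, Complex.re_sum]
  have h5 : 0 ≤ ∑ k, ∑ l, ((m l k * star (m l k) - m k l * star (m l k)).re
      + (m k l * star (m k l) - m l k * star (m k l)).re) := by
    refine sum_nonneg fun k _ => sum_nonneg fun l _ => ?_
    have h6 : (m l k * star (m l k) - m k l * star (m l k)).re
      + (m k l * star (m k l) - m l k * star (m k l)).re = Complex.normSq (m k l - m l k) := by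
      simp only [Complex.normSq_apply, Complex.sub_re, Complex.mul_re, Complex.star_def,
        Complex.conj_re, Complex.conj_im, Complex.sub_im]
      ring
    rw [h6]
    exact Complex.normSq_nonneg _
  simp only [sum_add_distrib] at h5
  have h7 : ∑ k, ∑ l, (m k l * star (m k l) - m l k * star (m k l)).re =
      ∑ k, ∑ l, (m l k * star (m l k) - m k l * star (m l k)).re := sum_comm
  rw [h7] at h5
  linarith

end Pool.Agent.Helper47.RFn
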