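import Pool.Agent.Helper47.RFn.GoalsA

/-! # Project RFn, packet EVM: evolution of the curvature tensor under the Ricci flow -/

namespace Pool.Agent.Helper47.RFn

open Finset

namespace EVM

variable {n : ℕ} {T : ℝ} {F : FB n T}

lemma con (hF : F.Full) (p q a : Ix n) (X : Ix n → F.B) :
    ∑ k, ∑ l, F.R p q k l * (F.dl l a * X k - F.dl k a * X l) =
      (-2 : ℝ) • ∑ k, F.R p q a k * X k := by
  have h1 : ∀ k, ∑ l, F.R p q k l * (F.dl l a * X k) = F.R p q k a * X k := by
    intro k
    simp only [FB.dl, ite_mul, one_mul, zero_mul, mul_ite, mul_zero, Finset.sum_ite_eq',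
      Finset.mem_univ, if_true]
  have h2 : ∑ k, ∑ l, F.R p q k l * (F.dl k a * X l) = ∑ l, F.R p q a l * X l := by
    rw [Finset.sum_comm]
    refine Finset.sum_congr rfl fun l _ => ?_
    simp only [FB.dl, ite_mul, one_mul, zero_mul, mul_ite, mul_zero, Finset.sum_ite_eq',
      Finset.mem_univ, if_true]
  simp only [mul_sub, Finset.sum_sub_distrib, h1, h2]
  have h3 : ∑ k, F.R p q k a * X k = - ∑ k, F.R p q a k * X k := by
    rw [← Finset.sum_neg_distrib]
    refine Finset.sum_congr rfl fun k _ => ?_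
    rw [hF.R34 p q k a]
    ring
  rw [h3, neg_smul, two_smul]
  ring

lemma CM (hF : F.Full) (p q a b c d : Ix n) :
    F.H p (F.H q (F.R a b c d)) - F.H q (F.H p (F.R a b c d)) =
      ∑ k, (F.R p q a k * F.R k b c d + F.R p q b k * F.R a k c d + F.R p q c k * F.R a b k d +
        F.R p q d k * F.R a b c k) := by
  rw [hF.HH]
  have h1 : ∑ k, ∑ l, F.R p q k l * F.V k l (F.R a b c d) =
      ∑ k, ∑ l, F.R p q k l * (F.dl l a * F.R k b c d - F.dl k a * F.R l b c d) +
      ∑ k, ∑ l, F.R p q k l * (F.dl l b * F.R a k c d - F.dl k b * F.R a l c d) +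
      ∑ k, ∑ l, F.R p q k l * (F.dl l c * F.R a b k d - F.dl k c * F.R a b l d) +
      ∑ k, ∑ l, F.R p q k l * (F.dl l d * F.R a b c k - F.dl k d * F.R a b c l) := by
    simp only [← Finset.sum_add_distrib]
    refine Finset.sum_congr rfl fun k _ => Finset.sum_congr rfl fun l _ => ?_
    rw [hF.VR]
    ring
  rw [h1, con hF p q a (fun k => F.R k b c d), con hF p q b (fun k => F.R a k c d),
    con hF p q c (fun k => F.R a b k d), con hF p q d (fun k => F.R a b c k), ← smul_add,
    ← smul_add, ← smul_add, smul_smul]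
  norm_num
  simp only [Finset.sum_add_distrib]

lemma sq_id (hF : F.Full) (a b c d : Ix n) :
    ∑ e, ∑ f, F.R a b e f * F.R c d e f =
      2 * ∑ e, ∑ f, (F.R a e b f * F.R c e d f - F.R a e b f * F.R d e c f) := by
  have hb : ∀ a b e f, F.R a b e f = F.R a e b f - F.R a f b e := by
    intro a b e f
    have h1 := hF.bia1 a b e f
    rw [hF.pair b e a f, hF.R12 e a b f] at h1
    linear_combination h1
  have h1 : ∀ e f, F.R a e b f * F.R c e d f - F.R a e b f * F.R d e c f =
      F.R a e b f * F.R c d e f := by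
    intro e f
    rw [hb c d e f, hF.pair c f d e]
    ring
  have h2 : ∑ e, ∑ f, F.R a f b e * F.R c d e f = - ∑ e, ∑ f, F.R a e b f * F.R c d e f := by
    rw [Finset.sum_comm, ← Finset.sum_neg_distrib]
    refine Finset.sum_congr rfl fun e _ => ?_
    rw [← Finset.sum_neg_distrib]
    refine Finset.sum_congr rfl fun f _ => ?_
    rw [hF.R34 c d f e]
    ring
  have h3 : ∑ e, ∑ f, F.R a b e f * F.R c d e f =
      ∑ e, ∑ f, F.R a e b f * F.R c d e f - ∑ e, ∑ f, F.R a f b e * F.R c d e f := by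
    simp only [← Finset.sum_sub_distrib]
    refine Finset.sum_congr rfl fun e _ => Finset.sum_congr rfl fun f _ => ?_
    rw [hb a b e f]
    ring
  simp only [h1]
  rw [h3, h2]
  ring

end EVM

open EVM in
theorem goal_EVM (hRIC : Goal_RIC) : Goal_EVM := by
  intro n T F hF hRF a b c d
  obtain ⟨-, -, hdiv, -⟩ := hRIC n T F hF
  -- the Laplacian
  have hL : F.Lap (F.R a b c d) =
      -(F.H a (F.H d (F.Ric b c) - F.H c (F.Ric b d))) + F.H b (F.H d (F.Ric a c) - F.H c (F.Ric a d))
      - ∑ e, ∑ k, (F.R e a b k * F.R k e c d + F.R e a e k * F.R b k c d + F.R e a c k * F.R b e k d +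
        F.R e a d k * F.R b e c k)
      + ∑ e, ∑ k, (F.R e b a k * F.R k e c d + F.R e b e k * F.R a k c d + F.R e b c k * F.R a e k d +
        F.R e b d k * F.R a e c k) := by
    rw [← hdiv b c d, ← hdiv a c d, map_sum, map_sum]
    unfold FB.Lap
    rw [← Finset.sum_neg_distrib, ← Finset.sum_add_distrib, ← Finset.sum_sub_distrib,
      ← Finset.sum_add_distrib]
    refine Finset.sum_congr rfl fun e _ => ?_
    have h1 := congrArg (F.H e) (hF.bia2 e a b c d)
    rw [map_add, map_add, map_zero, hF.R12 e a c d, map_neg, map_neg] at h1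
    rw [← CM hF e a b e c d, ← CM hF e b a e c d]
    linear_combination h1
  have hD := hF.DR a b c d
  have hY : ∀ x y z, F.Y x y z = F.H z (F.Ric x y) - F.H y (F.Ric x z) := by
    intro x y z
    unfold FB.Y
    rw [hRF x y, hRF x z]
  rw [hY b c d, hY a c d] at hD
  simp only [hRF _ _] at hD
  -- contractions
  have hRc : ∀ x k, ∑ e, F.R e x e k = F.Ric x k := by
    intro x k
    unfold FB.Ric
    refine Finset.sum_congr rfl fun e _ => ?_
    rw [hF.R12 e x e k, hF.R34 x e e k]
    ring
  have hc1 : ∑ e, ∑ k, F.R e a e k * F.R b k c d = - ∑ k, F.Ric a k * F.R k b c d := by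
    rw [Finset.sum_comm, ← Finset.sum_neg_distrib]
    refine Finset.sum_congr rfl fun k _ => ?_
    rw [← Finset.sum_mul, hRc, hF.R12 b k c d]
    ring
  have hc2 : ∑ e, ∑ k, F.R e b e k * F.R a k c d = ∑ k, F.Ric b k * F.R a k c d := by
    rw [Finset.sum_comm]
    refine Finset.sum_congr rfl fun k _ => ?_
    rw [← Finset.sum_mul, hRc]
  have hb : ∀ e k, F.R e a b k - F.R e b a k = - F.R a b e k := by
    intro e k
    have h1 := hF.bia1 a b e k
    rw [hF.R12 b e a k] at h1
    linear_combination h1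
  have hS := sq_id hF a b c d
  have hkey : ∑ e, ∑ k, (F.R e a b k * F.R k e c d + F.R e a e k * F.R b k c d +
        F.R e a c k * F.R b e k d + F.R e a d k * F.R b e c k)
      - ∑ e, ∑ k, (F.R e b a k * F.R k e c d + F.R e b e k * F.R a k c d + F.R e b c k * F.R a e k d +
        F.R e b d k * F.R a e c k) =
      ∑ e, ∑ k, F.R e a e k * F.R b k c d - ∑ e, ∑ k, F.R e b e k * F.R a k c d +
      ∑ e, ∑ k, F.R a b e k * F.R c d e k +
      2 * ∑ e, ∑ k, (F.R a e c k * F.R b e d k - F.R a e d k * F.R b e c k) := by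
    simp only [Finset.mul_sum, ← Finset.sum_sub_distrib, ← Finset.sum_add_distrib]
    refine Finset.sum_congr rfl fun e _ => Finset.sum_congr rfl fun k _ => ?_
    rw [hF.pair c d e k, hF.R12 k e c d, hF.R12 e a c k, hF.R34 b e k d, hF.R12 e a d k,
      hF.R12 e b c k, hF.R34 a e k d, hF.R12 e b d k]
    linear_combination (-F.R e k c d) * hb e k
  have hQ : F.QR a b c d = ∑ e, ∑ f, (F.R a e b f * F.R c e d f - F.R a e b f * F.R d e c f) +
      ∑ e, ∑ k, (F.R a e c k * F.R b e d k - F.R a e d k * F.R b e c k) := by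
    unfold FB.QR
    simp only [← Finset.sum_add_distrib]
    refine Finset.sum_congr rfl fun e _ => Finset.sum_congr rfl fun k _ => ?_
    ring
  unfold FB.Hop
  rw [hL, hD, hQ, two_smul]
  rw [hc1, hc2, hS] at hkey
  linear_combination hkey

end Pool.Agent.Helper47.RFn
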