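import Pool.Agent.Helper47.RFn.GoalsA

/-! # Project RFn, packet NRB: reaction terms at a point -/

namespace Pool.Agent.Helper47.RFn

open Finset

theorem goal_NRB (hNR : Goal_NR) (hQB : Goal_QB) (hRP1 : Goal_RP1) (hRP2 : Goal_RP2)
    (hRP3 : Goal_RP3) (hEVS : Goal_EVS) (hRIC : Goal_RIC) (_hPRD : Goal_PRD) : Goal_NRB := by
  intro n hn
  obtain ⟨C, hC, hmain⟩ := hNR n hn
  refine ⟨4 * C, by positivity, fun T F hF hRF z t hlam => ?_⟩
  obtain ⟨hS1, hS2, -, -, -⟩ := hEVS n T F (by omega) hF hRF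
  obtain ⟨-, -, -, -, -, hHor, hQR⟩ := hRIC n T F hF
  set R : T4 (n + 1) := F.rv z t with hR
  set ν : Ix n → ℝ := F.nv z t with hν
  have hνν : ∑ i, ν i ^ 2 = 1 := by
    have h := congrArg (F.ev z t) hF.nunu
    simpa [map_sum, map_pow, hν, FB.nv] using h
  obtain ⟨ι, hι⟩ := hRP1 n ν hνν
  have hHR : Hor ν R := hHor z t
  obtain ⟨hcr, -, -, -, hlr, hQp, hHQ, -, -, -, -⟩ := hRP2 n ν ι R hι hHR
  obtain ⟨h31, h32, -, -, h35, h36, h37, h38, -⟩ := hRP3 n ν ι hι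
  -- evaluations
  have hRic : ∀ a c, F.ev z t (F.Ric a c) = Ric R a c := by
    intro a c
    simp only [FB.Ric, Ric, hR, FB.rv, map_sum]
  have hlamev : F.ev z t F.lam = lam (pull ι R) := by
    rw [hlr]
    unfold FB.lam
    rw [map_smul, map_sum]
    simp only [hRic, smul_eq_mul]
    ring
  have hP : ∀ a b, F.ev z t (F.P a b) = Pm ν a b := by
    intro a b
    simp only [FB.P, FB.dl, Pm, hν, FB.nv, map_sub, map_mul]
    split_ifs <;> simp
  set l : ℝ := lam (pull ι R) with hl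
  set Ev : T4 (n + 1) := fun a b c d => F.ev z t (F.E a b c d) with hEv
  have hEv2 : Ev = R + (-(l / ((n : ℝ) - 1))) • wdg (Pm ν) (Pm ν) := by
    funext a b c d
    simp only [hEv, FB.E, FB.I, map_sub, map_smul, map_mul, hP, hlamev, Pi.add_apply,
      Pi.smul_apply, smul_eq_mul, wdg, hR, FB.rv]
    ring
  have hHE : Hor ν Ev := by
    rw [hEv2]
    exact h37 _ _ hHR (h38 _ _ h32)
  have hpE : pull ι Ev = pull ι R - (l / ((n : ℝ) - 1)) • Id4 n := by
    rw [hEv2, h35, h36, h31, neg_smul]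
    exact (sub_eq_add_neg _ _).symm
  obtain ⟨-, -, -, -, -, -, -, -, -, hsq, hprod⟩ := hRP2 n ν ι Ev hι hHE
  have he2 : F.ev z t F.e2 = ∑ a, ∑ b, ∑ c, ∑ d, (pull ι Ev) a b c d ^ 2 := by
    rw [← hsq]
    simp only [FB.e2, map_sum, map_pow, hEv]
  have hEQ : F.ev z t (∑ a, ∑ b, ∑ c, ∑ d, F.E a b c d * F.QR a b c d) =
      ∑ a, ∑ b, ∑ c, ∑ d, (pull ι Ev) a b c d * Q (pull ι R) a b c d := by
    rw [hQp, ← hprod (Q R) hHQ]
    simp only [map_sum, map_mul, hEv, hQR, hR]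
  have hl0 : 0 ≤ l := by rw [← hlamev]; exact hlam
  obtain ⟨hA, hB, hD⟩ := hmain (pull ι R) (pull ι Ev) hcr hl0 hpE
  -- the scalar curvature
  have hlQ : F.ev z t (F.Hop F.lam) = 2 * lam (Q (pull ι R)) := by
    rw [hS1, map_smul, hQp]
    obtain ⟨-, -, -, -, hlr2, -⟩ := hRP2 n ν ι (Q R) hι hHQ
    rw [hlr2, (hQB (n + 1)).2.2.2.2.2.1 R hHR.1]
    have h1 : ∑ a, act R (Ric R) a a = ∑ a, ∑ b, Ric R a b ^ 2 := by
      simp only [act]
      rw [Finset.sum_comm]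
      refine Finset.sum_congr rfl fun e _ => ?_
      rw [Finset.sum_comm]
      refine Finset.sum_congr rfl fun f _ => ?_
      rw [← Finset.sum_mul]
      have h2 : ∑ a, R a e a f = Ric R e f := by
        unfold Ric
        refine Finset.sum_congr rfl fun a _ => ?_
        rw [hHR.1.a12 a e a f, hHR.1.a34 e a a f]
        ring
      rw [h2]
      ring
    rw [h1]
    simp only [map_sum, map_pow, hRic, smul_eq_mul]
    ring
  refine ⟨?_, ?_, ?_⟩
  · rw [hS2, map_sub, map_smul, map_smul, hEQ, hlamev, he2]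
    simp only [smul_eq_mul]
    nlinarith [hA]
  · rw [hlQ, hlamev]
    linarith
  · rw [hlQ, hlamev, he2]
    have h5 : 0 ≤ ∑ a, ∑ b, ∑ c, ∑ d, (pull ι Ev) a b c d ^ 2 :=
      Finset.sum_nonneg fun a _ => Finset.sum_nonneg fun b _ => Finset.sum_nonneg fun c _ =>
        Finset.sum_nonneg fun d _ => sq_nonneg _
    nlinarith [hD, mul_nonneg hC.le h5]

end Pool.Agent.Helper47.RFn
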