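import Pool.Agent.Helper47.RFn.GoalsA

/-! # Project RFn, packet RP1: existence of the isometry -/

namespace Pool.Agent.Helper47.RFn

open Finset

theorem goal_RP1 : Goal_RP1 := by
  intro n ν hν
  set x : EuclideanSpace ℝ (Fin (n + 1)) := WithLp.toLp 2 ν with hx
  have hxi : ∀ i, x i = ν i := fun i => rfl
  have hxn : ‖x‖ = 1 := by
    rw [EuclideanSpace.norm_eq, Real.sqrt_eq_one]
    simpa [hxi] using hν
  have hon : Orthonormal ℝ (({0} : Set (Fin (n + 1))).restrict (fun _ => x)) := by
    constructor
    · intro _; exact hxn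
    · intro i j hij
      exact absurd (Subsingleton.elim i j) hij
  obtain ⟨b, hb⟩ := Orthonormal.exists_orthonormalBasis_extension_of_card_eq
    (𝕜 := ℝ) (E := EuclideanSpace ℝ (Fin (n + 1))) (ι := Fin (n + 1))
    (by simp) (v := fun _ => x) (s := {0}) hon
  have hb0 : b 0 = x := hb 0 rfl
  have hin : ∀ k l, ∑ i, b k i * b l i = if k = l then 1 else 0 := by
    intro k l
    have h := orthonormal_iff_ite.mp b.orthonormal l k
    rw [PiLp.inner_apply] at h
    have h2 : ∀ i, inner ℝ (b l i) (b k i) = b k i * b l i := fun i => by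
      simp
    simp only [h2] at h
    rw [h]
    simp only [eq_comm]
  have hout : ∀ i j, ∑ k, b k i * b k j = if i = j then 1 else 0 := by
    intro i j
    have h := b.sum_inner_mul_inner (EuclideanSpace.single i (1 : ℝ)) (EuclideanSpace.single j (1 : ℝ))
    simp only [EuclideanSpace.inner_single_left, EuclideanSpace.inner_single_right] at h
    simp only [map_one, one_mul, RCLike.star_def, conj_trivial, mul_one] at h
    rw [h]
    simp [Pi.single_apply, eq_comm]
  refine ⟨fun i a => b a.succ i, hν, ?_, ?_, ?_⟩
  · intro a c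
    rw [hin]
    simp
  · intro a
    have h := hin 0 a.succ
    rw [hb0, if_neg (Fin.succ_ne_zero a).symm] at h
    simpa [hxi] using h
  · intro i j
    have h := hout i j
    rw [Fin.sum_univ_succ, hb0] at h
    rw [← h, hxi, hxi]
    ring

end Pool.Agent.Helper47.RFn
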