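import Pool.Agent.Helper47.RFn.GoalsA

/-! # Project RFn, packet RP3: more dictionary -/

namespace Pool.Agent.Helper47.RFn

open Finset

namespace RP3

variable {n : ℕ}

lemma wdg_curv {n : ℕ} {A B : M2 n} (hA : A.IsSymm) (hB : B.IsSymm) : IsCurv (wdg A B) := by
  have hA' : ∀ i j, A i j = A j i := fun i j => hA.apply j i
  have hB' : ∀ i j, B i j = B j i := fun i j => hB.apply j i
  constructor
  · intro a b c d; simp only [wdg]; ring
  · intro a b c d; simp only [wdg]; ring
  · intro a b c d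
    simp only [wdg]
    rw [hA' a c, hA' a d, hA' b c, hA' b d, hB' a c, hB' a d, hB' b c, hB' b d]
    ring
  · intro a b c d
    simp only [wdg]
    rw [hA' b a, hB' b a, hA' c a, hB' c a, hA' c b, hB' c b]
    ring

lemma wdg_ker {ν : Ix n → ℝ} {A B : M2 (n + 1)} (hA : ∀ i, ∑ j, A i j * ν j = 0)
    (hB : ∀ i, ∑ j, B i j * ν j = 0) (a b c : Ix n) : ∑ d, wdg A B a b c d * ν d = 0 := by
  have h : ∀ d, wdg A B a b c d * ν d = (1 / 2) * (A a c * (B b d * ν d)) -
      (1 / 2) * (B b c * (A a d * ν d)) + (1 / 2) * (B a c * (A b d * ν d)) -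
      (1 / 2) * (A b c * (B a d * ν d)) := fun d => by simp only [wdg]; ring
  simp only [h, Finset.sum_add_distrib, Finset.sum_sub_distrib, ← Finset.mul_sum, hA, hB]
  ring

lemma Pm_symm (ν : Ix n → ℝ) : (Pm ν).IsSymm := by
  ext i j
  simp only [Matrix.transpose_apply, Pm, eq_comm (a := j) (b := i)]
  ring

lemma Pm_ker {ν : Ix n → ℝ} (h : ∑ i, ν i ^ 2 = 1) (i : Ix n) : ∑ j, Pm ν i j * ν j = 0 := by
  have h1 : ∀ j, Pm ν i j * ν j = (if i = j then ν j else 0) - ν i * ν j ^ 2 := fun j => by
    simp only [Pm]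
    split_ifs <;> ring
  simp only [h1, Finset.sum_sub_distrib, ← Finset.mul_sum, h, Finset.sum_ite_eq, Finset.mem_univ,
    if_true]
  ring

lemma s4a (ι : Ix n → Fin n → ℝ) (A B : M2 (n + 1)) (a b c d : Fin n) :
    ∑ i, ∑ j, ∑ k, ∑ l, A i k * B j l * ι i a * ι j b * ι k c * ι l d =
      pull2 ι A a c * pull2 ι B b d := by
  simp only [pull2]
  rw [Finset.sum_mul_sum]
  refine Finset.sum_congr rfl fun i _ => Finset.sum_congr rfl fun j _ => ?_
  rw [Finset.sum_mul_sum]
  refine Finset.sum_congr rfl fun k _ => Finset.sum_congr rfl fun l _ => ?_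
  ring

lemma s4b (ι : Ix n → Fin n → ℝ) (A B : M2 (n + 1)) (a b c d : Fin n) :
    ∑ i, ∑ j, ∑ k, ∑ l, A i l * B j k * ι i a * ι j b * ι k c * ι l d =
      pull2 ι A a d * pull2 ι B b c := by
  simp only [pull2]
  rw [Finset.sum_mul_sum]
  refine Finset.sum_congr rfl fun i _ => Finset.sum_congr rfl fun j _ => ?_
  rw [Finset.sum_mul_sum, Finset.sum_comm]
  refine Finset.sum_congr rfl fun k _ => Finset.sum_congr rfl fun l _ => ?_
  ring

lemma pull_wdg (ι : Ix n → Fin n → ℝ) (A B : M2 (n + 1)) :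
    pull ι (wdg A B) = wdg (pull2 ι A) (pull2 ι B) := by
  funext a b c d
  have h : ∀ i j k l, wdg A B i j k l * ι i a * ι j b * ι k c * ι l d =
      (1 / 2) * (A i k * B j l * ι i a * ι j b * ι k c * ι l d) -
      (1 / 2) * (A i l * B j k * ι i a * ι j b * ι k c * ι l d) +
      (1 / 2) * (B i k * A j l * ι i a * ι j b * ι k c * ι l d) -
      (1 / 2) * (B i l * A j k * ι i a * ι j b * ι k c * ι l d) := fun i j k l => by
    simp only [wdg]; ring
  simp only [pull, h, Finset.sum_add_distrib, Finset.sum_sub_distrib, ← Finset.mul_sum, s4a, s4b]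
  simp only [wdg]
  ring

lemma pull2_eq (ι : Ix n → Fin n → ℝ) (A : M2 (n + 1)) :
    pull2 ι A = (Matrix.of ι).transpose * A * (Matrix.of ι) := by
  ext a b
  simp only [pull2, Matrix.mul_apply, Matrix.transpose_apply, Matrix.of_apply, Finset.sum_mul]
  rw [Finset.sum_comm]
  refine Finset.sum_congr rfl fun k _ => Finset.sum_congr rfl fun l _ => ?_
  ring

lemma pull2_Pm {ν : Ix n → ℝ} {ι : Ix n → Fin n → ℝ} (h : Iso ν ι) : pull2 ι (Pm ν) = 1 := by
  ext a b
  have h1 : ∀ i j, Pm ν i j * ι i a * ι j b =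
      (if i = j then ι i a * ι j b else 0) - (ν i * ι i a) * (ν j * ι j b) := fun i j => by
    simp only [Pm]
    split_ifs <;> ring
  simp only [pull2, h1, Finset.sum_sub_distrib, Finset.sum_ite_eq, Finset.mem_univ, if_true,
    ← Finset.mul_sum, h.perp, mul_zero, Finset.sum_const_zero, sub_zero, h.orth, Matrix.one_apply]

lemma recon {ν : Ix n → ℝ} {ι : Ix n → Fin n → ℝ} (h : Iso ν ι) {A : M2 (n + 1)}
    (hA : A.IsSymm) (hk : ∀ i, ∑ j, A i j * ν j = 0) (i j : Ix n) :
    A i j = ∑ a, ∑ b, pull2 ι A a b * ι i a * ι j b := by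
  have hM : (Matrix.of ι) * (Matrix.of ι).transpose = Pm ν := by
    ext i j
    simp only [Matrix.mul_apply, Matrix.transpose_apply, Matrix.of_apply, Pm, h.compl]
  have hAP : A * Pm ν = A := by
    ext i j
    have h1 : ∀ k, A i k * Pm ν k j = (if k = j then A i k else 0) - (A i k * ν k) * ν j :=
      fun k => by
        simp only [Pm]
        split_ifs <;> ring
    simp only [Matrix.mul_apply, h1, Finset.sum_sub_distrib, ← Finset.sum_mul, hk, zero_mul,
      Finset.sum_ite_eq', Finset.mem_univ, if_true, sub_zero]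
  have hPA : Pm ν * A = A := by
    have := congrArg Matrix.transpose hAP
    rw [Matrix.transpose_mul, (Pm_symm ν).eq, hA.eq] at this
    exact this
  have hE : (Matrix.of ι) * pull2 ι A * (Matrix.of ι).transpose = A := by
    rw [pull2_eq]
    calc (Matrix.of ι) * ((Matrix.of ι).transpose * A * (Matrix.of ι)) * (Matrix.of ι).transpose
        = ((Matrix.of ι) * (Matrix.of ι).transpose) * A * ((Matrix.of ι) * (Matrix.of ι).transpose) := by
          simp only [Matrix.mul_assoc]
      _ = A := by rw [hM, Matrix.mul_assoc, hAP, hPA]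
  have h2 : A i j = ((Matrix.of ι) * pull2 ι A * (Matrix.of ι).transpose) i j := by rw [hE]
  rw [h2]
  simp only [Matrix.mul_apply, Matrix.transpose_apply, Matrix.of_apply, Finset.sum_mul]
  rw [Finset.sum_comm]
  refine Finset.sum_congr rfl fun k _ => Finset.sum_congr rfl fun l _ => ?_
  ring

lemma Id4_apply (m : ℕ) (a b c d : Fin m) : Id4 m a b c d =
    (if a = c then 1 else 0) * (if b = d then 1 else 0) -
      (if a = d then 1 else 0) * (if b = c then 1 else 0) := by
  simp only [Id4, wdg, Matrix.one_apply]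
  ring

lemma qf_Id4 (m : ℕ) (z w : Fin m → ℂ) : qf (Id4 m) z w =
    (∑ a, Complex.normSq (z a)) * (∑ a, Complex.normSq (w a)) -
      Complex.normSq (∑ a, z a * star (w a)) := by
  have h1 : ∀ a b, ∑ c, ∑ d, ((Id4 m a b c d : ℝ) : ℂ) * z a * w b * star (z c) * star (w d) =
      (z a * star (z a)) * (w b * star (w b)) - (z a * star (w a)) * (w b * star (z b)) := by
    intro a b
    have h2 : ∀ c d, ((Id4 m a b c d : ℝ) : ℂ) * z a * w b * star (z c) * star (w d) =
        (if a = c then (if b = d then z a * w b * star (z c) * star (w d) else 0) else 0) -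
        (if b = c then (if a = d then z a * w b * star (z c) * star (w d) else 0) else 0) := by
      intro c d
      rw [Id4_apply]
      push_cast
      split_ifs <;> simp
    simp only [h2, Finset.sum_sub_distrib]
    have h3 : ∀ (x y : Fin m) (f : Fin m → Fin m → ℂ),
        ∑ c, ∑ d, (if x = c then (if y = d then f c d else 0) else 0) = f x y := by
      intro x y f
      rw [Finset.sum_eq_single x]
      · rw [Finset.sum_eq_single y]
        · simp
        · intro b _ hb; simp [hb.symm]
        · simp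
      · intro b _ hb; simp [hb.symm]
      · simp
    rw [h3 a b (fun c d => z a * w b * star (z c) * star (w d)),
      h3 b a (fun c d => z a * w b * star (z c) * star (w d))]
    ring
  unfold qf
  simp only [h1, Finset.sum_sub_distrib]
  rw [← Finset.sum_mul_sum, ← Finset.sum_mul_sum]
  have h4 : ∀ u : Fin m → ℂ, ∑ a, u a * star (u a) = ((∑ a, Complex.normSq (u a) : ℝ) : ℂ) := by
    intro u
    push_cast
    exact Finset.sum_congr rfl fun a _ => Complex.mul_conj (u a)
  have h5 : ∑ b, w b * star (z b) = star (∑ a, z a * star (w a)) := by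
    rw [star_sum]
    exact Finset.sum_congr rfl fun a _ => by rw [star_mul, star_star]
  rw [h4, h4, h5]
  have h6 : (∑ a, z a * star (w a)) * star (∑ a, z a * star (w a)) =
      ((Complex.normSq (∑ a, z a * star (w a)) : ℝ) : ℂ) := Complex.mul_conj _
  rw [h6, ← Complex.ofReal_mul, ← Complex.ofReal_sub, Complex.ofReal_re]

lemma herm {ν : Ix n → ℝ} {ι : Ix n → Fin n → ℝ} (h : Iso ν ι) (z w : Ix n → ℂ) :
    ∑ i, z i * star (w i) = ∑ a, pullv ι z a * star (pullv ι w a) +
      (∑ i, (ν i : ℂ) * z i) * star (∑ i, (ν i : ℂ) * w i) := by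
  have h1 : ∀ a, pullv ι z a * star (pullv ι w a) =
      ∑ i, ∑ j, ((ι i a * ι j a : ℝ) : ℂ) * (z i * star (w j)) := by
    intro a
    simp only [pullv, star_sum]
    rw [Finset.sum_mul_sum]
    refine Finset.sum_congr rfl fun i _ => Finset.sum_congr rfl fun j _ => ?_
    rw [star_mul]
    have : star ((ι j a : ℝ) : ℂ) = (ι j a : ℂ) := Complex.conj_ofReal _
    rw [this]
    push_cast
    ring
  have h2 : ∑ a, pullv ι z a * star (pullv ι w a) =
      ∑ i, ∑ j, ((∑ a, ι i a * ι j a : ℝ) : ℂ) * (z i * star (w j)) := by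
    simp only [h1]
    rw [Finset.sum_comm]
    refine Finset.sum_congr rfl fun i _ => ?_
    rw [Finset.sum_comm]
    refine Finset.sum_congr rfl fun j _ => ?_
    rw [← Finset.sum_mul]
    push_cast
    rfl
  have h3 : (∑ i, (ν i : ℂ) * z i) * star (∑ i, (ν i : ℂ) * w i) =
      ∑ i, ∑ j, ((ν i * ν j : ℝ) : ℂ) * (z i * star (w j)) := by
    rw [star_sum, Finset.sum_mul_sum]
    refine Finset.sum_congr rfl fun i _ => Finset.sum_congr rfl fun j _ => ?_
    rw [star_mul]
    have : star ((ν j : ℝ) : ℂ) = (ν j : ℂ) := Complex.conj_ofReal _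
    rw [this]
    push_cast
    ring
  rw [h2, h3, ← Finset.sum_add_distrib]
  refine Finset.sum_congr rfl fun i _ => ?_
  rw [← Finset.sum_add_distrib]
  have h4 : ∀ j, ((∑ a, ι i a * ι j a : ℝ) : ℂ) * (z i * star (w j)) +
      ((ν i * ν j : ℝ) : ℂ) * (z i * star (w j)) = if i = j then z i * star (w j) else 0 := by
    intro j
    rw [h.compl, ← add_mul, ← Complex.ofReal_add, sub_add_cancel]
    split_ifs <;> simp
  simp only [h4, Finset.sum_ite_eq, Finset.mem_univ, if_true]

lemma nsq {ν : Ix n → ℝ} {ι : Ix n → Fin n → ℝ} (h : Iso ν ι) (z : Ix n → ℂ) :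
    ∑ i, Complex.normSq (z i) = ∑ a, Complex.normSq (pullv ι z a) +
      Complex.normSq (∑ i, (ν i : ℂ) * z i) := by
  have h1 := herm h z z
  have h4 : ∀ (m : ℕ) (u : Fin m → ℂ), ∑ a, u a * star (u a) =
      ((∑ a, Complex.normSq (u a) : ℝ) : ℂ) := by
    intro m u
    push_cast
    exact Finset.sum_congr rfl fun a _ => Complex.mul_conj (u a)
  have h6 : (∑ i, (ν i : ℂ) * z i) * star (∑ i, (ν i : ℂ) * z i) =
      ((Complex.normSq (∑ i, (ν i : ℂ) * z i) : ℝ) : ℂ) := Complex.mul_conj _
  rw [h4, h4, h6] at h1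
  exact_mod_cast h1

lemma qf_le {ν : Ix n → ℝ} {ι : Ix n → Fin n → ℝ} (h : Iso ν ι) (z w : Ix n → ℂ) :
    qf (Id4 n) (pullv ι z) (pullv ι w) ≤ qf (Id4 (n + 1)) z w := by
  rw [qf_Id4, qf_Id4, nsq h z, nsq h w, herm h z w]
  set z' := pullv ι z
  set w' := pullv ι w
  set z0 := ∑ i, (ν i : ℂ) * z i
  set w0 := ∑ i, (ν i : ℂ) * w i
  set X := ∑ a, z' a * star (w' a) with hX
  have hS : ∑ a, Complex.normSq (z' a * w0 - w' a * z0) =
      (∑ a, Complex.normSq (z' a)) * Complex.normSq w0 +
      (∑ a, Complex.normSq (w' a)) * Complex.normSq z0 - 2 * (X * (w0 * star z0)).re := by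
    have h1 : ∀ a, Complex.normSq (z' a * w0 - w' a * z0) =
        Complex.normSq (z' a) * Complex.normSq w0 + Complex.normSq (w' a) * Complex.normSq z0 -
        2 * (z' a * star (w' a) * (w0 * star z0)).re := by
      intro a
      rw [Complex.normSq_sub, Complex.normSq_mul, Complex.normSq_mul]
      congr 3
      rw [map_mul]
      simp only [starRingEnd_apply]
      ring
    have h2 : (X * (w0 * star z0)).re = ∑ a, (z' a * star (w' a) * (w0 * star z0)).re := by
      rw [hX, Finset.sum_mul, Complex.re_sum]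
    rw [h2]
    simp only [h1, Finset.sum_sub_distrib, Finset.sum_add_distrib, ← Finset.sum_mul,
      ← Finset.mul_sum]
  have hN : Complex.normSq (X + z0 * star w0) = Complex.normSq X +
      Complex.normSq z0 * Complex.normSq w0 + 2 * (X * (w0 * star z0)).re := by
    rw [Complex.normSq_add, Complex.normSq_mul]
    have e1 : Complex.normSq (star w0) = Complex.normSq w0 := Complex.normSq_conj w0
    have e2 : (starRingEnd ℂ) (z0 * star w0) = w0 * star z0 := by
      rw [map_mul]
      simp only [starRingEnd_apply, star_star]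
      ring
    rw [e1, e2]
  have hpos : 0 ≤ ∑ a, Complex.normSq (z' a * w0 - w' a * z0) :=
    Finset.sum_nonneg fun a _ => Complex.normSq_nonneg _
  rw [hN]
  nlinarith [hS, hpos]

end RP3

open RP3 in
theorem goal_RP3 : Goal_RP3 := by
  intro n ν ι h
  have hPk := Pm_ker h.nn
  refine ⟨?_, ⟨wdg_curv (Pm_symm ν) (Pm_symm ν), wdg_ker hPk hPk⟩, pull2_Pm h, ?_, ?_, ?_, ?_, ?_,
    ?_, ?_, ?_, qf_le h⟩
  · rw [pull_wdg, pull2_Pm h]; rfl
  · intro A hA hk
    refine ⟨?_, ⟨wdg_curv hA (Pm_symm ν), wdg_ker hk hPk⟩, recon h hA hk⟩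
    rw [pull_wdg, pull2_Pm h]
  · intro R S
    funext a b c d
    simp only [pull, Pi.add_apply, add_mul, Finset.sum_add_distrib]
  · intro c R
    funext a b e d
    simp only [pull, Pi.smul_apply, smul_eq_mul, mul_assoc, Finset.mul_sum]
  · intro R S hR hS
    refine ⟨⟨?_, ?_, ?_, ?_⟩, ?_⟩
    · intro a b c d; simp only [Pi.add_apply, hR.1.a12 a b c d, hS.1.a12 a b c d]; ring
    · intro a b c d; simp only [Pi.add_apply, hR.1.a34 a b c d, hS.1.a34 a b c d]; ring
    · intro a b c d; simp only [Pi.add_apply, hR.1.pair a b c d, hS.1.pair a b c d]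
    · intro a b c d
      simp only [Pi.add_apply]
      linear_combination hR.1.bian a b c d + hS.1.bian a b c d
    · intro a b c
      simp only [Pi.add_apply, add_mul, Finset.sum_add_distrib, hR.2, hS.2, add_zero]
  · intro c R hR
    refine ⟨⟨?_, ?_, ?_, ?_⟩, ?_⟩
    · intro a b e d; simp only [Pi.smul_apply, smul_eq_mul, hR.1.a12 a b e d]; ring
    · intro a b e d; simp only [Pi.smul_apply, smul_eq_mul, hR.1.a34 a b e d]; ring
    · intro a b e d; simp only [Pi.smul_apply, smul_eq_mul, hR.1.pair a b e d]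
    · intro a b e d
      simp only [Pi.smul_apply, smul_eq_mul]
      linear_combination c * hR.1.bian a b e d
    · intro a b e
      simp only [Pi.smul_apply, smul_eq_mul, mul_assoc, ← Finset.mul_sum, hR.2, mul_zero]
  · intro z
    funext b
    have h1 : pullv ι (fun i => ∑ a, (ι i a : ℂ) * z a) b =
        ∑ a, ((∑ i, ι i b * ι i a : ℝ) : ℂ) * z a := by
      simp only [pullv, Finset.mul_sum]
      rw [Finset.sum_comm]
      refine Finset.sum_congr rfl fun a _ => ?_
      push_cast
      rw [Finset.sum_mul]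
      refine Finset.sum_congr rfl fun i _ => ?_
      ring
    rw [h1]
    have h2 : ∀ x, (((∑ i, ι i b * ι i x : ℝ)) : ℂ) * z x = if b = x then z x else 0 := by
      intro x
      rw [h.orth]
      split_ifs <;> simp
    simp only [h2, Finset.sum_ite_eq, Finset.mem_univ, if_true]
  · intro v
    funext b
    have h1 : pullr ι (fun i => ∑ a, ι i a * v a) b = ∑ a, (∑ i, ι i b * ι i a) * v a := by
      simp only [pullr, Finset.mul_sum]
      rw [Finset.sum_comm]
      refine Finset.sum_congr rfl fun a _ => ?_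
      rw [Finset.sum_mul]
      refine Finset.sum_congr rfl fun i _ => ?_
      ring
    rw [h1]
    simp [h.orth]
  · intro v
    have h1 := nsq h (fun i => (v i : ℂ))
    have h2 : ∀ a, pullv ι (fun i => (v i : ℂ)) a = ((pullr ι v a : ℝ) : ℂ) := by
      intro a
      simp only [pullv, pullr]
      push_cast
      rfl
    have h3 : (∑ i, (ν i : ℂ) * (v i : ℂ)) = ((∑ i, ν i * v i : ℝ) : ℂ) := by
      push_cast
      rfl
    simp only [h2, h3, Complex.normSq_ofReal] at h1
    simp only [nrm, sq]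
    linarith

end Pool.Agent.Helper47.RFn
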